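import Pool.Agent.E8helper93.CR.Lower

/-!
# MP_5ec5e0_co, Q1: the connected Ramsey number of a path and a cycle

`crSet G H` is the set of the integers `n ≥ 4` such that, for every `N ≥ n`, every totally connected
graph `F` on `N` vertices contains `G` or has a complement which contains `H`; the connected Ramsey
number `cr(G, H)` is its least element.

The theorem: for all `m` and all `n ≥ 3`, `cr(P_m, C_n) = 4` if `m ≤ 4`, and
`cr(P_m, C_n) = max (m - 1 + ⌊(n - 1) / 2⌋, n - 1 + ⌊m / 2⌋)` if `m ≥ 5`.
-/

set_option autoImplicit false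

namespace Pool.Agent.Results.MP_5ec5e0_co.PathCycleH93

open SimpleGraph Pool.Agent.E8helper93.CR

/-- The integers `n ≥ 4` such that for every `N ≥ n` and every totally connected graph `F` on `N`
vertices, `G ≤ F` or `H ≤ Fᶜ` (as not necessarily induced subgraphs). -/
def crSet {A B : Type} (G : SimpleGraph A) (H : SimpleGraph B) : Set ℕ :=
  {n | 4 ≤ n ∧ ∀ N, n ≤ N → ∀ F : SimpleGraph (Fin N), F.Connected → Fᶜ.Connected →
    G.IsContained F ∨ H.IsContained Fᶜ}

theorem lower {m n k : ℕ} (hm : 5 ≤ m) (hn : 3 ≤ n)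
    (hk : k < max (m - 1 + (n - 1) / 2) (n - 1 + m / 2)) :
    k ∉ crSet (pathGraph m) (cycleGraph n) := by
  rintro ⟨hk4, h⟩
  by_cases h1 : n - 2 + m / 2 ≤ m - 2 + (n - 1) / 2
  · have hN : k ≤ m - 2 + (n - 1) / 2 := by
      rcases lt_max_iff.1 hk with h2 | h2 <;> omega
    rcases h _ hN (L1 m _) (L1_conn hm (by omega)) (L1_compl_conn hm (by omega)) with h3 | h3
    · exact L1_no_path hm h3
    · exact L1_no_cycle hn hm rfl h3
  · have hN : k ≤ n - 2 + m / 2 := by
      rcases lt_max_iff.1 hk with h2 | h2 <;> omega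
    by_cases h6 : 6 ≤ m
    · rcases h _ hN (L2 (m / 2 - 1) _) (L2_conn (by omega) (by omega))
        (L2_compl_conn (by omega) (by omega)) with h3 | h3
      · exact L2_no_path (by omega) h3
      · exact L2_no_cycle hn (by omega) (by omega) h3
    · obtain rfl : m = 5 := by omega
      have hN' : k ≤ n := by omega
      rcases h n hN' (L3 n) (L3_conn (by omega)) (L3_compl_conn (by omega)) with h3 | h3
      · exact L3_no_path h3
      · exact L3_no_cycle (by omega) h3

/-- The connected Ramsey number of the path `P_m` on `m` vertices and the cycle `C_n` on `n ≥ 3`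
vertices. -/
theorem result (m n : ℕ) (hn : 3 ≤ n) :
    IsLeast (crSet (pathGraph m) (cycleGraph n))
      (if m ≤ 4 then 4 else max (m - 1 + (n - 1) / 2) (n - 1 + m / 2)) := by
  by_cases h4 : m ≤ 4
  · rw [if_pos h4]
    refine ⟨⟨le_rfl, fun N hN F hF hF' => ?_⟩, fun k hk => hk.1⟩
    exact upper hF hF' hn (by simpa using hN) (Or.inl h4)
  · rw [if_neg h4]
    push Not at h4
    refine ⟨⟨?_, fun N hN F hF hF' => ?_⟩, fun k hk => ?_⟩
    · have := le_max_left (m - 1 + (n - 1) / 2) (n - 1 + m / 2)
      omega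
    · have h1 := (le_max_left (m - 1 + (n - 1) / 2) (n - 1 + m / 2)).trans hN
      have h2 := (le_max_right (m - 1 + (n - 1) / 2) (n - 1 + m / 2)).trans hN
      refine upper hF hF' hn ?_ (Or.inr ⟨by simpa using h1, by simpa using h2⟩)
      rw [Fintype.card_fin]
      omega
    · by_contra hc
      push Not at hc
      exact lower h4 hn hc hk

end Pool.Agent.Results.MP_5ec5e0_co.PathCycleH93
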